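import Pool.Agent.Q15.Conn.Core

set_option autoImplicit false

namespace Pool.Agent.Q15.Conn

/-- the descent test for `2049 ≤ x < 4097` -/
theorem chkC : chk (nat_lit 11) (nat_lit 2049) = true := by decide +kernel

end Pool.Agent.Q15.Conn
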