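import Pool.Agent.Q15.Conn.Core

set_option autoImplicit false

namespace Pool.Agent.Q15.Conn

/-- the descent test for `131073 ≤ x < 262145` -/
theorem chkI : chk (nat_lit 17) (nat_lit 131073) = true := by decide +kernel

end Pool.Agent.Q15.Conn
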