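/-! A descent test for the map `w ↦ w (w + 1)` modulo `1113643`, written for evaluation in the kernel. -/

set_option autoImplicit false

namespace Pool.Agent.Q15.Conn

/-- at most `fuel` iterations of `w ↦ w (w + 1) mod 1113643` beginning with `y`; the result is `0` as soon as an
iterate `z` satisfies `(z + x) mod 1113643 < 2 x`, otherwise it is the last iterate -/
noncomputable def run (x : Nat) (fuel : Nat) : Nat → Nat :=
  Nat.rec (motive := fun _ => Nat → Nat) (fun y => y)
    (fun _ ih y =>
      Bool.rec (motive := fun _ => Nat) (ih (Nat.mod (Nat.mul y (Nat.succ y)) (nat_lit 1113643))) (nat_lit 0)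
        (Nat.ble (Nat.succ (Nat.mod (Nat.add (Nat.mod (Nat.mul y (Nat.succ y)) (nat_lit 1113643)) x) (nat_lit 1113643)))
          (Nat.add x x)))
    fuel

/-- at most `r` rounds of `400` iterations beginning with `y` -/
noncomputable def rounds (x : Nat) (r : Nat) : Nat → Bool :=
  Nat.rec (motive := fun _ => Nat → Bool) (fun _ => false)
    (fun _ ih y => Nat.rec (motive := fun _ => Bool) true (fun z _ => ih (Nat.succ z)) (run x (nat_lit 400) y)) r

/-- the test for all `x` with `a ≤ x < a + 2 ^ k` -/
noncomputable def chk (k : Nat) : Nat → Bool :=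
  Nat.rec (motive := fun _ => Nat → Bool)
    (fun a => Nat.rec (motive := fun _ => Bool) true (fun b _ => rounds (Nat.succ b) (nat_lit 8) (Nat.succ b)) a)
    (fun k ih a => Bool.rec (motive := fun _ => Bool) false (ih (Nat.add a (Nat.pow (nat_lit 2) k))) (ih a)) k

end Pool.Agent.Q15.Conn
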