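import Mathlib
import Pool.Agent.Q15.Conn.CA1
import Pool.Agent.Q15.Conn.CA2
import Pool.Agent.Q15.Conn.CB
import Pool.Agent.Q15.Conn.CC
import Pool.Agent.Q15.Conn.CD
import Pool.Agent.Q15.Conn.CE
import Pool.Agent.Q15.Conn.CF
import Pool.Agent.Q15.Conn.CG
import Pool.Agent.Q15.Conn.CH
import Pool.Agent.Q15.Conn.CI
import Pool.Agent.Q15.Conn.CJ
import Pool.Agent.Q15.Conn.CK

/-! Every orbit of `w ↦ w (w + 1)` modulo `1113643` reaches `0`. -/

set_option autoImplicit false

namespace Pool.Agent.Q15.Conn

/-- the map -/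
def F (y : ℕ) : ℕ := y * (y + 1) % 1113643

def Good (x y : ℕ) : Prop := ∃ k : ℕ, (F^[k] y + x) % 1113643 < 2 * x

theorem Good.step {x y : ℕ} (h : Good x (F y)) : Good x y := by
  obtain ⟨k, hk⟩ := h
  exact ⟨k + 1, by rwa [Function.iterate_succ_apply]⟩

theorem Good.iter {x y : ℕ} (n : ℕ) (h : Good x (F^[n] y)) : Good x y := by
  obtain ⟨k, hk⟩ := h
  exact ⟨k + n, by rwa [Function.iterate_add_apply]⟩

theorem run_succ (x n y : ℕ) : run x (n + 1) y =
    bif Nat.ble (Nat.succ ((F y + x) % 1113643)) (x + x) then 0 else run x n (F y) := by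
  change (Bool.rec (motive := fun _ => ℕ) (run x n (F y)) 0
    (Nat.ble (Nat.succ ((F y + x) % 1113643)) (x + x)) : ℕ) = _
  cases Nat.ble (Nat.succ ((F y + x) % 1113643)) (x + x) <;> rfl

theorem run_spec (x : ℕ) : ∀ (n y : ℕ), Good x y ∨ run x n y = F^[n] y := by
  intro n
  induction n with
  | zero => intro y; exact Or.inr rfl
  | succ n ih =>
    intro y
    rw [run_succ]
    rcases h : Nat.ble (Nat.succ ((F y + x) % 1113643)) (x + x) with _ | _
    · rcases ih (F y) with h1 | h1
      · exact Or.inl h1.step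
      · right
        rw [cond_false, h1, Function.iterate_succ_apply]
    · left
      have h2 := Nat.le_of_ble_eq_true h
      exact Good.step ⟨0, by rw [Function.iterate_zero, id_eq]; omega⟩

theorem rounds_succ (x r y : ℕ) : rounds x (r + 1) y =
    (Nat.rec (motive := fun _ => Bool) true (fun z _ => rounds x r (z + 1)) (run x 400 y) : Bool) := rfl

theorem rounds_spec (x : ℕ) (hx : 1 ≤ x) (hx2 : x < 1113643) : ∀ (r y : ℕ), rounds x r y = true → Good x y := by
  intro r
  induction r with
  | zero => intro y h; exact absurd h (by change ¬ (false = true); decide)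
  | succ r ih =>
    intro y h
    rw [rounds_succ] at h
    rcases run_spec x 400 y with h1 | h1
    · exact h1
    · rcases h2 : run x 400 y with _ | z
      · rw [h2] at h1
        exact ⟨400, by rw [← h1, zero_add, Nat.mod_eq_of_lt hx2]; omega⟩
      · rw [h2] at h h1
        apply Good.iter 400
        rw [← h1]
        exact ih _ h

theorem chk_spec : ∀ (k a : ℕ), chk k a = true → ∀ x, a ≤ x → x < a + 2 ^ k → 1 ≤ x →
    rounds x 8 x = true := by
  intro k
  induction k with
  | zero =>
    intro a h x h1 h2 h3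
    have : x = a := by omega
    subst this
    obtain ⟨b, rfl⟩ : ∃ b, x = b + 1 := ⟨x - 1, by omega⟩
    exact h
  | succ k ih =>
    intro a h x h1 h2 h3
    have h' : (Bool.rec (motive := fun _ => Bool) false (chk k (a + 2 ^ k)) (chk k a) : Bool) = true := h
    rcases h4 : chk k a with _ | _
    · rw [h4] at h'
      exact absurd h' (by change ¬ (false = true); decide)
    · rw [h4] at h'
      have h5 : chk k (a + 2 ^ k) = true := h'
      rcases Nat.lt_or_ge x (a + 2 ^ k) with h6 | h6
      · exact ih a h4 x h1 h6 h3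
      · exact ih _ h5 x h6 (by rw [pow_succ] at h2; omega) h3

theorem all_good (x : ℕ) (hx1 : 1 ≤ x) (hx2 : x ≤ 556821) : Good x x := by
  apply rounds_spec x hx1 (by omega) 8
  have : x < 513 ∨ (513 ≤ x ∧ x < 1025) ∨ (1025 ≤ x ∧ x < 2049) ∨ (2049 ≤ x ∧ x < 4097) ∨
    (4097 ≤ x ∧ x < 8193) ∨ (8193 ≤ x ∧ x < 16385) ∨ (16385 ≤ x ∧ x < 32769) ∨ (32769 ≤ x ∧ x < 65537) ∨
    (65537 ≤ x ∧ x < 131073) ∨ (131073 ≤ x ∧ x < 262145) ∨ (262145 ≤ x ∧ x < 524289) ∨ 524289 ≤ x := by omega
  rcases this with h | h | h | h | h | h | h | h | h | h | h | h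
  · exact chk_spec 9 1 chkA1 x (by omega) (by omega) hx1
  · exact chk_spec 9 513 chkA2 x (by omega) (by omega) hx1
  · exact chk_spec 10 1025 chkB x (by omega) (by omega) hx1
  · exact chk_spec 11 2049 chkC x (by omega) (by omega) hx1
  · exact chk_spec 12 4097 chkD x (by omega) (by omega) hx1
  · exact chk_spec 13 8193 chkE x (by omega) (by omega) hx1
  · exact chk_spec 14 16385 chkF x (by omega) (by omega) hx1
  · exact chk_spec 15 32769 chkG x (by omega) (by omega) hx1
  · exact chk_spec 16 65537 chkH x (by omega) (by omega) hx1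
  · exact chk_spec 17 131073 chkI x (by omega) (by omega) hx1
  · exact chk_spec 18 262145 chkJ x (by omega) (by omega) hx1
  · exact chk_spec 15 524289 chkK x (by omega) (by omega) hx1

theorem F_symm (y : ℕ) (hy : y < 1113643) : F (1113642 - y) = F y := by
  unfold F
  have h : ((1113642 - y : ℕ) * ((1113642 - y) + 1)) ≡ y * (y + 1) [MOD 1113643] := by
    rw [Nat.modEq_iff_dvd]
    have e : (((1113642 - y : ℕ) : ℤ)) = 1113642 - y := by push_cast [Nat.cast_sub (show y ≤ 1113642 by omega)]; ring
    push_cast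
    rw [e]
    exact ⟨2 * y - 1113642, by ring⟩
  exact h

theorem F_lt (y : ℕ) : F y < 1113643 := Nat.mod_lt _ (by norm_num)

theorem iter_lt {x : ℕ} (hx : x < 1113643) (k : ℕ) : F^[k] x < 1113643 := by
  cases k with
  | zero => exact hx
  | succ k => rw [Function.iterate_succ_apply']; exact F_lt _

/-- if `p - 1 - x` reaches zero, so does `x` -/
theorem reach_symm {x : ℕ} (hx : x < 1113643) (h : ∃ k, F^[k] (1113642 - x) = 0) : ∃ k, F^[k] x = 0 := by
  obtain ⟨k, hk⟩ := h
  cases k with
  | zero =>
    rw [Function.iterate_zero, id_eq] at hk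
    refine ⟨1, ?_⟩
    rw [Function.iterate_one, ← F_symm x hx, hk]
    rfl
  | succ k =>
    refine ⟨k + 1, ?_⟩
    rw [Function.iterate_succ_apply, F_symm x hx] at hk
    rw [Function.iterate_succ_apply, hk]

theorem reach (x : ℕ) (hx : x < 1113643) : ∃ k, F^[k] x = 0 := by
  induction x using Nat.strong_induction_on with
  | _ x ih =>
    rcases Nat.eq_zero_or_pos x with h0 | h0
    · exact ⟨0, h0⟩
    rcases Nat.lt_or_ge 556821 x with h1 | h1
    · exact reach_symm hx (ih _ (by omega) (by omega))
    · obtain ⟨k, hk⟩ := all_good x h0 h1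
      have hz := iter_lt hx k
      set z := F^[k] x with hzdef
      have : z < x ∨ 1113642 - z < x := by
        rcases Nat.lt_or_ge (z + x) 1113643 with h2 | h2
        · rw [Nat.mod_eq_of_lt h2] at hk
          left; omega
        · right
          omega
      have hr : ∃ j, F^[j] z = 0 := by
        rcases this with h2 | h2
        · exact ih z h2 hz
        · exact reach_symm hz (ih _ h2 (by omega))
      obtain ⟨j, hj⟩ := hr
      exact ⟨j + k, by rw [Function.iterate_add_apply]; exact hj⟩

end Pool.Agent.Q15.Conn
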